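import Mathlib

/-!
# Cubic multigraphs given by a permutation and a perfect matching: planting a graph

A pair `(π, μ)` of permutations of `V`, `μ` a fixed point free involution, stands for the cubic
multigraph with the edges `v → π v`, `v ∈ V`, and the edges `{v, μ v}`.
-/

set_option autoImplicit false
set_option linter.unusedSectionVars false

namespace Pool.Agent.Helper86.Flow

open Equiv Finset

/-- `μ` is a perfect matching: an involution without fixed points -/
def IsMatching {V : Type*} (μ : Perm V) : Prop := ∀ v, μ v ≠ v ∧ μ (μ v) = v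

/-- the number of the edges `v → π v` and `{v, μ v}` with exactly one end in `S` -/
noncomputable def cut {V : Type*} (π μ : Perm V) (S : Set V) : ℕ :=
  {v | v ∈ S ∧ π v ∉ S}.ncard + {v | v ∉ S ∧ π v ∈ S}.ncard + {v | v ∈ S ∧ μ v ∉ S}.ncard

/-- the graph is connected and has no bridge: every edge cut has at least two edges -/
def TwoEdgeConnected {V : Type*} (π μ : Perm V) : Prop :=
  ∀ S : Set V, S.Nonempty → S ≠ Set.univ → 2 ≤ cut π μ S

/-- a flow with values in `A` all of which satisfy `P`; `f v` is the value on the edge from `v` to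
`π v`, and `g v` the value on the matching edge at `v`, counted away from `v` -/
def HasFlow {V A : Type*} [AddCommGroup A] (P : A → Prop) (π μ : Perm V) : Prop :=
  ∃ f g : V → A, (∀ v, P (f v) ∧ P (g v)) ∧ (∀ v, g (μ v) = -g v) ∧
    ∀ v, f (π v) + g (π v) = f v

/-! ### The planted graph -/

section Plant

variable {U : Type*} [DecidableEq U] {m : ℕ}

/-- the edge `a → π a` of `π` is replaced by a path through the new vertices `ρ 0, …, ρ m` -/
def plantP (π : Perm U) (a : U) (ρ : Perm (Fin (m + 1))) : Perm (U ⊕ Fin (m + 1)) :=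
  (Equiv.sumCongr π (ρ * finRotate (m + 1) * ρ⁻¹)) *
    Equiv.swap (Sum.inl a) (Sum.inr (ρ (Fin.last m)))

/-- the matchings together -/
def plantM (μ : Perm U) (ν : Perm (Fin (m + 1))) : Perm (U ⊕ Fin (m + 1)) := Equiv.sumCongr μ ν

variable (π μ : Perm U) (a : U) (ρ ν : Perm (Fin (m + 1)))

@[simp] theorem plantM_inl (u : U) : plantM μ ν (Sum.inl u) = Sum.inl (μ u) := rfl

@[simp] theorem plantM_inr (i : Fin (m + 1)) : plantM μ ν (Sum.inr i) = Sum.inr (ν i) := rfl

theorem plantP_inl {u : U} (hu : u ≠ a) : plantP π a ρ (Sum.inl u) = Sum.inl (π u) := by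
  have h : Equiv.swap (Sum.inl a) (Sum.inr (ρ (Fin.last m))) (Sum.inl u) = Sum.inl u :=
    Equiv.swap_apply_of_ne_of_ne (by simpa using hu) (by simp)
  simp [plantP, Perm.mul_apply, h]

theorem plantP_a : plantP π a ρ (Sum.inl a) = Sum.inr (ρ 0) := by
  simp [plantP, Perm.mul_apply, Equiv.swap_apply_left]

theorem plantP_last : plantP π a ρ (Sum.inr (ρ (Fin.last m))) = Sum.inl (π a) := by
  simp [plantP, Perm.mul_apply, Equiv.swap_apply_right]

theorem plantP_cast (i : Fin m) :
    plantP π a ρ (Sum.inr (ρ i.castSucc)) = Sum.inr (ρ i.succ) := by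
  have h : Equiv.swap (Sum.inl a) (Sum.inr (ρ (Fin.last m))) (Sum.inr (ρ i.castSucc)) =
      Sum.inr (ρ i.castSucc) := by
    refine Equiv.swap_apply_of_ne_of_ne (by simp) ?_
    intro h
    have h1 := ρ.injective (Sum.inr_injective h)
    exact absurd h1 (Fin.castSucc_lt_last i).ne
  simp [plantP, Perm.mul_apply, h]

theorem isMatching_plantM {μ : Perm U} {ν : Perm (Fin (m + 1))} (hμ : IsMatching μ)
    (hν : IsMatching ν) : IsMatching (plantM μ ν) := by
  rintro (u | i)
  · have := hμ u
    simp [this.1, this.2]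
  · have := hν i
    simp [this.1, this.2]

/-- the new vertices are all on the same side as `a`, for a set which is mapped to itself -/
theorem side {S : Set (U ⊕ Fin (m + 1))} (hS : ∀ v, plantP π a ρ v ∈ S ↔ v ∈ S)
    (i : Fin (m + 1)) : (Sum.inr (ρ i) ∈ S ↔ Sum.inl a ∈ S) := by
  induction i using Fin.induction with
  | zero => rw [← plantP_a π a ρ, hS]
  | succ i ih => rw [← plantP_cast π a ρ, hS, ih]

theorem side' {S : Set (U ⊕ Fin (m + 1))} (hS : ∀ v, plantP π a ρ v ∈ S ↔ v ∈ S)
    (i : Fin (m + 1)) : (Sum.inr i ∈ S ↔ Sum.inl a ∈ S) := by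
  have := side π a ρ hS (ρ⁻¹ i)
  simpa using this

/-- a set which is mapped to itself: the same for the old graph -/
theorem side_old {S : Set (U ⊕ Fin (m + 1))} (hS : ∀ v, plantP π a ρ v ∈ S ↔ v ∈ S) (u : U) :
    (Sum.inl (π u) ∈ S ↔ Sum.inl u ∈ S) := by
  by_cases hu : u = a
  · subst hu
    rw [← plantP_last π u ρ, hS]
    exact side π u ρ hS _
  · rw [← plantP_inl π a ρ hu, hS]

end Plant

/-- a finite set which is not mapped to itself is left and entered by the permutation -/
theorem two_le_cut {V : Type*} [Finite V] (π μ : Perm V) (S : Set V)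
    (h : ¬ ∀ v, π v ∈ S ↔ v ∈ S) : 2 ≤ cut π μ S := by
  have h1 : 1 ≤ {v | v ∈ S ∧ π v ∉ S}.ncard := by
    by_contra hc
    have hc' : {v | v ∈ S ∧ π v ∉ S}.ncard = 0 := by omega
    rw [Set.ncard_eq_zero (Set.toFinite _)] at hc'
    have hm : Set.MapsTo π S S := by
      intro v hv
      by_contra h2
      have : v ∈ {v | v ∈ S ∧ π v ∉ S} := ⟨hv, h2⟩
      rw [hc'] at this
      exact this
    apply h
    intro v
    constructor
    · intro hv
      have hsurj : Set.SurjOn π S S := by
        exact (((Set.toFinite S).injOn_iff_bijOn_of_mapsTo hm).mp π.injective.injOn).surjOn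
      obtain ⟨w, hw, hwv⟩ := hsurj hv
      rwa [π.injective hwv] at hw
    · intro hv
      exact hm hv
  have h2 : 1 ≤ {v | v ∉ S ∧ π v ∈ S}.ncard := by
    by_contra hc
    have hc' : {v | v ∉ S ∧ π v ∈ S}.ncard = 0 := by omega
    rw [Set.ncard_eq_zero (Set.toFinite _)] at hc'
    have hm : Set.MapsTo π Sᶜ Sᶜ := by
      intro v hv h2
      have : v ∈ {v | v ∉ S ∧ π v ∈ S} := ⟨hv, h2⟩
      rw [hc'] at this
      exact this
    apply h
    intro v
    constructor
    · intro hv
      by_contra h2
      exact hm h2 hv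
    · intro hv
      by_contra h2
      have hsurj : Set.SurjOn π Sᶜ Sᶜ := by
        exact (((Set.toFinite Sᶜ).injOn_iff_bijOn_of_mapsTo hm).mp π.injective.injOn).surjOn
      obtain ⟨w, hw, hwv⟩ := hsurj h2
      rw [π.injective hwv] at hw
      exact hw hv
  unfold cut
  omega

theorem twoEdgeConnected_plant {U : Type*} [DecidableEq U] [Finite U] {m : ℕ} {π μ : Perm U} (a : U)
    (ρ : Perm (Fin (m + 1))) {ν : Perm (Fin (m + 1))} (h : TwoEdgeConnected π μ) :
    TwoEdgeConnected (plantP π a ρ) (plantM μ ν) := by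
  intro S hS1 hS2
  by_cases hS : ∀ v, plantP π a ρ v ∈ S ↔ v ∈ S
  swap
  · exact two_le_cut _ _ _ hS
  -- the old part
  obtain ⟨T, hT⟩ : ∃ T : Set U, T = Sum.inl ⁻¹' S := ⟨_, rfl⟩
  have hTn : T.Nonempty := by
    obtain ⟨v, hv⟩ := hS1
    rcases v with u | i
    · exact ⟨u, by rw [hT]; exact hv⟩
    · exact ⟨a, by rw [hT]; exact (side' π a ρ hS i).mp hv⟩
  have hTu : T ≠ Set.univ := by
    intro hu
    apply hS2
    ext v
    simp only [Set.mem_univ, iff_true]
    rcases v with u | i
    · have : u ∈ T := by rw [hu]; trivial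
      rw [hT] at this
      exact this
    · have : a ∈ T := by rw [hu]; trivial
      rw [hT] at this
      exact (side' π a ρ hS i).mpr this
  have h1 := h T hTn hTu
  have hinv : ∀ u, π u ∈ T ↔ u ∈ T := by
    intro u
    rw [hT]
    exact side_old π a ρ hS u
  have e1 : {v | v ∈ T ∧ π v ∉ T} = ∅ := by
    ext v
    simp [hinv v]
  have e2 : {v | v ∉ T ∧ π v ∈ T} = ∅ := by
    ext v
    simp [hinv v]
  have h2 : 2 ≤ {v | v ∈ T ∧ μ v ∉ T}.ncard := by
    unfold cut at h1
    rw [e1, e2] at h1
    simpa using h1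
  have h3 : {v | v ∈ T ∧ μ v ∉ T}.ncard ≤ {v | v ∈ S ∧ plantM μ ν v ∉ S}.ncard := by
    rw [← Set.ncard_image_of_injective (f := (Sum.inl : U → U ⊕ Fin (m + 1))) _
      Sum.inl_injective]
    refine Set.ncard_le_ncard ?_ (Set.toFinite _)
    rintro _ ⟨u, ⟨hu1, hu2⟩, rfl⟩
    rw [hT] at hu1 hu2
    exact ⟨hu1, hu2⟩
  unfold cut
  omega

/-- the sum of the values on a matching edge at the two ends is zero -/
theorem sum_matching {A : Type*} [AddCommGroup A] {m : ℕ} {ν : Perm (Fin m)} (hν : IsMatching ν)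
    (g : Fin m → A) (hg : ∀ i, g (ν i) = -g i) : ∑ i, g i = 0 := by
  refine Finset.sum_involution (fun i _ => ν i) ?_ ?_ ?_ ?_
  · intro i _
    rw [hg, add_neg_cancel]
  · intro i _ _
    exact (hν i).1
  · intro i _
    exact Finset.mem_univ _
  · intro i _
    exact (hν i).2

theorem hasFlow_of_plant {U A : Type*} [DecidableEq U] [AddCommGroup A] (P : A → Prop) {m : ℕ}
    {π μ : Perm U} (a : U) (ρ : Perm (Fin (m + 1))) {ν : Perm (Fin (m + 1))} (hν : IsMatching ν)
    (h : HasFlow P (plantP π a ρ) (plantM μ ν)) : HasFlow P π μ := by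
  obtain ⟨f, g, hP, hg, hf⟩ := h
  -- along the path
  have hpath : ∀ i : Fin (m + 1), f (Sum.inr (ρ i)) =
      f (Sum.inl a) - ∑ j ∈ Finset.univ.filter (fun j => j ≤ i), g (Sum.inr (ρ j)) := by
    intro i
    induction i using Fin.induction with
    | zero =>
      have h1 := hf (Sum.inl a)
      rw [plantP_a] at h1
      have e : (Finset.univ.filter fun j : Fin (m + 1) => j ≤ 0) = {0} := by
        ext j
        simp
      rw [e, Finset.sum_singleton, ← h1]
      abel
    | succ i ih =>
      have h1 := hf (Sum.inr (ρ i.castSucc))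
      rw [plantP_cast] at h1
      have e : (Finset.univ.filter fun j : Fin (m + 1) => j ≤ i.succ) =
          insert i.succ (Finset.univ.filter fun j : Fin (m + 1) => j ≤ i.castSucc) := by
        ext j
        simp only [Finset.mem_filter, Finset.mem_univ, true_and, Finset.mem_insert]
        rw [Fin.le_def, Fin.le_def, Fin.ext_iff, Fin.val_succ, Fin.val_castSucc]
        omega
      rw [e, Finset.sum_insert (by simp [Fin.le_def]), eq_sub_iff_add_eq]
      rw [eq_sub_iff_add_eq] at ih
      rw [← add_assoc, h1, ih]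
  have hlast : f (Sum.inr (ρ (Fin.last m))) = f (Sum.inl a) := by
    rw [hpath (Fin.last m)]
    have e : (Finset.univ.filter fun j : Fin (m + 1) => j ≤ Fin.last m) = Finset.univ := by
      ext j
      simp [Fin.le_last]
    rw [e, Equiv.sum_comp ρ (fun i => g (Sum.inr i)),
      sum_matching hν (fun i => g (Sum.inr i)) (fun i => hg (Sum.inr i)), sub_zero]
  refine ⟨fun u => f (Sum.inl u), fun u => g (Sum.inl u), fun u => hP _, fun u => hg (Sum.inl u),
    fun u => ?_⟩
  by_cases hu : u = a
  · subst hu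
    have h1 := hf (Sum.inr (ρ (Fin.last m)))
    rw [plantP_last, hlast] at h1
    exact h1
  · have h1 := hf (Sum.inl u)
    rw [plantP_inl π a ρ hu] at h1
    exact h1

/-- the planted graph determines the new vertices and their matching -/
theorem plant_injective {U : Type*} [DecidableEq U] {m : ℕ} (π μ : Perm U) (a : U) :
    Function.Injective (fun x : Perm (Fin (m + 1)) × Perm (Fin (m + 1)) =>
      (plantP π a x.1, plantM μ x.2)) := by
  rintro ⟨ρ, ν⟩ ⟨ρ', ν'⟩ h
  simp only [Prod.mk.injEq] at h
  obtain ⟨h1, h2⟩ := h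
  have h3 : ν = ν' := by
    ext i
    have := congrArg (fun p : Perm (U ⊕ Fin (m + 1)) => p (Sum.inr i)) h2
    simpa using congrArg Fin.val (Sum.inr_injective this)
  have h4 : ρ = ρ' := by
    ext i
    have key : ∀ i : Fin (m + 1), ρ i = ρ' i := by
      intro i
      induction i using Fin.induction with
      | zero =>
        have : plantP π a ρ (Sum.inl a) = plantP π a ρ' (Sum.inl a) := by rw [h1]
        rw [plantP_a, plantP_a] at this
        exact Sum.inr_injective this
      | succ i ih =>
        have : plantP π a ρ (Sum.inr (ρ i.castSucc)) = plantP π a ρ' (Sum.inr (ρ i.castSucc)) := by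
          rw [h1]
        rw [plantP_cast, ih, plantP_cast] at this
        exact Sum.inr_injective this
    rw [key i]
  rw [h3, h4]

end Pool.Agent.Helper86.Flow
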