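import Pool.Agent.Helper86.Flow.Core

/-!
# Counting the planted graphs
-/

set_option autoImplicit false
set_option linter.unusedSectionVars false

namespace Pool.Agent.Helper86.Flow

open Equiv Finset

/-! ### Transport -/

section Transport

variable {V W : Type*} (e : V ≃ W) (π μ : Perm V)

theorem isMatching_congr : IsMatching (e.permCongr μ) ↔ IsMatching μ := by
  constructor
  · intro h v
    have := h (e v)
    simpa [Equiv.permCongr_apply] using this
  · intro h w
    have := h (e.symm w)
    constructor
    · intro h1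
      apply this.1
      rw [Equiv.permCongr_apply] at h1
      rw [← h1]
      simp
      rw [← Equiv.eq_symm_apply] at h1
      exact h1.symm ▸ h1
    · simp [Equiv.permCongr_apply, this.2]

theorem cut_congr (S : Set W) : cut (e.permCongr π) (e.permCongr μ) S = cut π μ (e ⁻¹' S) := by
  unfold cut
  have key : ∀ p : V → Prop, {w : W | p (e.symm w)}.ncard = {v | p v}.ncard := by
    intro p
    rw [← Set.ncard_image_of_injective {v | p v} e.injective]
    congr 1
    ext w
    constructor
    · intro hw
      exact ⟨e.symm w, hw, by simp⟩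
    · rintro ⟨v, hv, rfl⟩
      simpa using hv
  have h1 := key (fun v => v ∈ e ⁻¹' S ∧ π v ∉ e ⁻¹' S)
  have h2 := key (fun v => v ∉ e ⁻¹' S ∧ π v ∈ e ⁻¹' S)
  have h3 := key (fun v => v ∈ e ⁻¹' S ∧ μ v ∉ e ⁻¹' S)
  simp only [Set.mem_preimage, Equiv.apply_symm_apply] at h1 h2 h3
  simp only [Set.mem_preimage, Equiv.permCongr_apply]
  rw [h1, h2, h3]

theorem twoEdgeConnected_congr (h : TwoEdgeConnected π μ) :
    TwoEdgeConnected (e.permCongr π) (e.permCongr μ) := by
  intro S hS1 hS2
  rw [cut_congr]
  apply h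
  · obtain ⟨w, hw⟩ := hS1
    exact ⟨e.symm w, by simpa using hw⟩
  · intro hu
    apply hS2
    ext w
    have : e.symm w ∈ e ⁻¹' S := by rw [hu]; trivial
    simpa using this

theorem hasFlow_of_congr {A : Type*} [AddCommGroup A] (P : A → Prop)
    (h : HasFlow P (e.permCongr π) (e.permCongr μ)) : HasFlow P π μ := by
  obtain ⟨f, g, h1, h2, h3⟩ := h
  refine ⟨fun v => f (e v), fun v => g (e v), fun v => h1 _, fun v => ?_, fun v => ?_⟩
  · have := h2 (e v)
    simpa [Equiv.permCongr_apply] using this
  · have := h3 (e v)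
    simpa [Equiv.permCongr_apply] using this

end Transport

/-! ### The number of the perfect matchings -/

theorem isMatching_iff {n : ℕ} (μ : Perm (Fin n)) :
    IsMatching μ ↔ ∃ l, n = 2 * l ∧ μ.cycleType = Multiset.replicate l 2 := by
  constructor
  · intro h
    have h2 : μ ^ 2 = 1 := by
      ext v
      simp [pow_two, (h v).2]
    have : Fact (Nat.Prime 2) := ⟨Nat.prime_two⟩
    have hl := Perm.cycleType_of_pow_prime_eq_one h2
    have hs : μ.support = Finset.univ := by
      ext v
      simp [(h v).1]
    have hsum := μ.sum_cycleType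
    obtain ⟨l, hl'⟩ : ∃ l, l = μ.cycleType.card := ⟨_, rfl⟩
    rw [← hl'] at hl
    rw [hl, hs, Multiset.sum_replicate, Finset.card_univ, Fintype.card_fin, smul_eq_mul] at hsum
    exact ⟨l, by omega, hl⟩
  · rintro ⟨l, hn, hl⟩ v
    have hsum := μ.sum_cycleType
    rw [hl, Multiset.sum_replicate, smul_eq_mul] at hsum
    have hs : μ.support = Finset.univ := by
      apply Finset.eq_univ_of_card
      rw [← hsum, Fintype.card_fin, hn, mul_comm]
    have h1 : μ v ≠ v := by
      rw [← Perm.mem_support, hs]
      exact Finset.mem_univ v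
    refine ⟨h1, ?_⟩
    have h2 : orderOf μ ∣ 2 := by
      rw [← Perm.lcm_cycleType, hl]
      rw [Multiset.lcm_dvd]
      intro b hb
      rw [Multiset.eq_of_mem_replicate hb]
    have h3 : μ ^ 2 = 1 := orderOf_dvd_iff_pow_eq_one.mp h2
    have := congrArg (fun p : Perm (Fin n) => p v) h3
    simpa [pow_two] using this

/-- the number of the perfect matchings of `n` vertices -/
noncomputable def Mt (n : ℕ) : ℕ := {μ : Perm (Fin n) | IsMatching μ}.ncard

theorem Mt_mul (l : ℕ) : Mt (2 * l) * (2 ^ l * l.factorial) = (2 * l).factorial := by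
  classical
  have h := Perm.card_of_cycleType_mul_eq (Fin (2 * l)) (Multiset.replicate l 2)
  rw [Fintype.card_fin, Multiset.sum_replicate, Multiset.prod_replicate, smul_eq_mul,
    if_pos ⟨by omega, fun b hb => by rw [Multiset.eq_of_mem_replicate hb]⟩] at h
  have e1 : (2 * l - l * 2).factorial = 1 := by
    have : 2 * l - l * 2 = 0 := by omega
    rw [this, Nat.factorial_zero]
  have e2 : ∏ n ∈ (Multiset.replicate l 2).toFinset, ((Multiset.replicate l 2).count n).factorial =
      l.factorial := by
    rcases Nat.eq_zero_or_pos l with h0 | h0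
    · subst h0
      simp
    · rw [Multiset.toFinset_replicate, if_neg (by omega), Finset.prod_singleton,
        Multiset.count_replicate_self]
  rw [e1, e2, one_mul] at h
  rw [← h]
  congr 1
  unfold Mt
  rw [← Set.ncard_coe_finset]
  congr 1
  ext μ
  simp only [Finset.coe_filter, Finset.mem_univ, true_and]
  rw [Set.mem_ofPred_eq, Set.mem_ofPred_eq, isMatching_iff]
  constructor
  · rintro ⟨l', h1, h2⟩
    have : l' = l := by omega
    rw [h2, this]
  · intro h2
    exact ⟨l, rfl, h2⟩

theorem Mt_succ (l : ℕ) : Mt (2 * (l + 1)) = (2 * l + 1) * Mt (2 * l) := by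
  have h1 := Mt_mul l
  have h2 := Mt_mul (l + 1)
  have e : (2 * (l + 1)).factorial = (2 * l + 2) * ((2 * l + 1) * (2 * l).factorial) := by
    have : 2 * (l + 1) = (2 * l + 1) + 1 := by ring
    rw [this, Nat.factorial_succ, Nat.factorial_succ]
  rw [e, ← h1, Nat.factorial_succ, pow_succ] at h2
  have hpos : 0 < (2 * l + 2) * (2 ^ l * l.factorial) := by
    have := Nat.factorial_pos l
    positivity
  apply Nat.eq_of_mul_eq_mul_right hpos
  calc Mt (2 * (l + 1)) * ((2 * l + 2) * (2 ^ l * l.factorial))
      = Mt (2 * (l + 1)) * (2 ^ l * 2 * ((l + 1) * l.factorial)) := by ring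
    _ = (2 * l + 2) * ((2 * l + 1) * (Mt (2 * l) * (2 ^ l * l.factorial))) := h2
    _ = (2 * l + 1) * Mt (2 * l) * ((2 * l + 2) * (2 ^ l * l.factorial)) := by ring

theorem Mt_eq (l : ℕ) : Mt (2 * l) = (2 * l - 1).doubleFactorial := by
  induction l with
  | zero =>
    have := Mt_mul 0
    simpa using this
  | succ l ih =>
    rw [Mt_succ, ih]
    rcases Nat.eq_zero_or_pos l with h0 | h0
    · subst h0
      simp
    · have e : 2 * (l + 1) - 1 = (2 * l - 1) + 2 := by omega
      have e' : 2 * l + 1 = (2 * l - 1) + 2 := by omega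
      rw [e, Nat.doubleFactorial_add_two, ← e']

theorem Mt_le (k : ℕ) : ∀ l, k ≤ l → Mt (2 * l) ≤ (2 * l) ^ k * Mt (2 * (l - k)) := by
  induction k with
  | zero => intro l _; simp
  | succ k ih =>
    intro l hl
    obtain ⟨j, rfl⟩ : ∃ j, l = j + 1 := ⟨l - 1, by omega⟩
    have h1 := ih j (by omega)
    rw [Mt_succ]
    have e : j + 1 - (k + 1) = j - k := by omega
    rw [e]
    calc (2 * j + 1) * Mt (2 * j) ≤ (2 * (j + 1)) * ((2 * j) ^ k * Mt (2 * (j - k))) :=
          Nat.mul_le_mul (by omega) h1
      _ ≤ (2 * (j + 1)) * ((2 * (j + 1)) ^ k * Mt (2 * (j - k))) := by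
          apply Nat.mul_le_mul_left
          apply Nat.mul_le_mul_right
          exact Nat.pow_le_pow_left (by omega) k
      _ = (2 * (j + 1)) ^ (k + 1) * Mt (2 * (j - k)) := by ring

/-! ### The graphs -/

/-- all pairs of a permutation and a perfect matching of `n` vertices -/
def Cubic (n : ℕ) : Set (Perm (Fin n) × Perm (Fin n)) := {p | IsMatching p.2}

/-- the pairs whose graph is connected and bridgeless and has no flow with values in `P` -/
def Bad {A : Type*} [AddCommGroup A] (P : A → Prop) (n : ℕ) :
    Set (Perm (Fin n) × Perm (Fin n)) :=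
  {p | IsMatching p.2 ∧ TwoEdgeConnected p.1 p.2 ∧ ¬ HasFlow P p.1 p.2}

theorem ncard_cubic (n : ℕ) : (Cubic n).ncard = n.factorial * Mt n := by
  have h : Cubic n = (Set.univ : Set (Perm (Fin n))) ×ˢ {μ : Perm (Fin n) | IsMatching μ} := by
    ext p
    simp [Cubic]
  rw [h, Set.ncard_prod, Set.ncard_univ, Nat.card_eq_fintype_card, Fintype.card_perm,
    Fintype.card_fin]
  rfl

theorem ncard_cubic_even (l : ℕ) :
    (Cubic (2 * l)).ncard = (2 * l).factorial * (2 * l - 1).doubleFactorial := by
  rw [ncard_cubic, Mt_eq]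

theorem ncard_cubic_odd (l : ℕ) : (Cubic (2 * l + 1)).ncard = 0 := by
  rw [Set.ncard_eq_zero (Set.toFinite _)]
  ext p
  simp only [Cubic, Set.mem_ofPred_eq, Set.mem_empty_iff_false, iff_false]
  rw [isMatching_iff]
  rintro ⟨l', h, _⟩
  omega

section Plant

variable {A : Type*} [AddCommGroup A] (P : A → Prop)

open scoped Classical in
theorem count_plant {h m n : ℕ} (hn : h + (m + 1) = n) (hbad : (Bad P h).Nonempty) :
    n.factorial * Mt (m + 1) ≤ h.factorial * (n * (Bad P n).ncard) := by
  obtain ⟨⟨π, μ⟩, hμ, hc, hf⟩ := hbad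
  simp only at hμ hc hf
  -- a vertex of the old graph
  have hh : 0 < h := by
    rcases Nat.eq_zero_or_pos h with h0 | h0
    · subst h0
      exact absurd ⟨fun v => v.elim0, fun v => v.elim0, fun v => v.elim0, fun v => v.elim0,
        fun v => v.elim0⟩ hf
    · exact h0
  obtain ⟨a, _⟩ : ∃ a : Fin h, a = ⟨0, hh⟩ := ⟨_, rfl⟩
  -- the source and the map
  let s : Finset ((Fin h ⊕ Fin (m + 1) ≃ Fin n) × Perm (Fin (m + 1))) :=
    Finset.univ ×ˢ Finset.univ.filter (fun ν => IsMatching ν)
  let F : (Fin h ⊕ Fin (m + 1) ≃ Fin n) × Perm (Fin (m + 1)) →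
      (Perm (Fin n) × Perm (Fin n)) × Fin n := fun x =>
    ((x.1.permCongr (plantP π a 1), x.1.permCongr (plantM μ x.2)), x.1 (Sum.inl a))
  let t : Finset ((Perm (Fin n) × Perm (Fin n)) × Fin n) :=
    (Finset.univ.filter (fun p => p ∈ Bad P n)) ×ˢ Finset.univ
  have hs : s.card = n.factorial * Mt (m + 1) := by
    rw [Finset.card_product]
    congr 1
    · rw [Finset.card_univ]
      have e0 : Fin h ⊕ Fin (m + 1) ≃ Fin n := finSumFinEquiv.trans (finCongr hn)
      rw [Fintype.card_equiv e0]
      congr 1
      rw [Fintype.card_sum, Fintype.card_fin, Fintype.card_fin, hn]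
    · unfold Mt
      rw [← Set.ncard_coe_finset]
      congr 1
      ext ν
      simp
  have ht : t.card = (Bad P n).ncard * n := by
    rw [Finset.card_product, Finset.card_univ, Fintype.card_fin]
    congr 1
    rw [← Set.ncard_coe_finset]
    congr 1
    ext p
    simp
  have hmaps : ∀ x ∈ s, F x ∈ t := by
    rintro ⟨e, ν⟩ hx
    have hν : IsMatching ν := by
      have := (Finset.mem_product.mp hx).2
      simpa using this
    refine Finset.mem_product.mpr ⟨?_, Finset.mem_univ _⟩
    simp only [Finset.mem_filter, Finset.mem_univ, true_and, F]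
    refine ⟨(isMatching_congr e _).mpr (isMatching_plantM hμ hν),
      twoEdgeConnected_congr e _ _ (twoEdgeConnected_plant a 1 hc), fun hfl => ?_⟩
    exact hf (hasFlow_of_plant P a 1 hν (hasFlow_of_congr e _ _ P hfl))
  have hfib : ∀ y ∈ t, (s.filter fun x => F x = y).card ≤ h.factorial := by
    intro y _
    rcases (s.filter fun x => F x = y).eq_empty_or_nonempty with he | ⟨⟨e₀, ν₀⟩, h0⟩
    · rw [he, Finset.card_empty]
      exact Nat.zero_le _
    have h0' : F (e₀, ν₀) = y := (Finset.mem_filter.mp h0).2
    have hr : ∀ e ν, F (e, ν) = y → (∀ i, e (Sum.inr i) = e₀ (Sum.inr i)) ∧ ν = ν₀ := by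
      intro e ν hF
      have hF' : F (e, ν) = F (e₀, ν₀) := hF.trans h0'.symm
      simp only [F, Prod.mk.injEq] at hF'
      obtain ⟨⟨g1, g2⟩, g3⟩ := hF'
      have gp : ∀ v, e (plantP π a 1 v) = e₀ (plantP π a 1 (e₀.symm (e v))) := by
        intro v
        have := congrArg (fun p : Perm (Fin n) => p (e v)) g1
        simpa [Equiv.permCongr_apply] using this
      have gm : ∀ v, e (plantM μ ν v) = e₀ (plantM μ ν₀ (e₀.symm (e v))) := by
        intro v
        have := congrArg (fun p : Perm (Fin n) => p (e v)) g2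
        simpa [Equiv.permCongr_apply] using this
      have key : ∀ i : Fin (m + 1), e (Sum.inr i) = e₀ (Sum.inr i) := by
        intro i
        induction i using Fin.induction with
        | zero =>
          have h1 := gp (Sum.inl a)
          rw [g3, Equiv.symm_apply_apply, plantP_a] at h1
          simpa using h1
        | succ i ih =>
          have h1 := gp (Sum.inr ((1 : Perm (Fin (m + 1))) i.castSucc))
          rw [plantP_cast] at h1
          have ih' : e (Sum.inr ((1 : Perm (Fin (m + 1))) i.castSucc)) =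
              e₀ (Sum.inr ((1 : Perm (Fin (m + 1))) i.castSucc)) := by simpa using ih
          rw [ih', Equiv.symm_apply_apply, plantP_cast] at h1
          simpa using h1
      refine ⟨key, ?_⟩
      ext i
      have h1 := gm (Sum.inr i)
      rw [key i, Equiv.symm_apply_apply, plantM_inr, plantM_inr, key] at h1
      exact congrArg Fin.val (Sum.inr_injective (e₀.injective h1))
    -- embed the fibre in the embeddings of the old vertices
    let R : Set (Fin n) := {x | ∀ i, x ≠ e₀ (Sum.inr i)}
    have hR : Fintype.card R = h := by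
      have : R = Set.range (fun u : Fin h => e₀ (Sum.inl u)) := by
        ext x
        constructor
        · intro hx
          obtain ⟨v, rfl⟩ := e₀.surjective x
          rcases v with u | i
          · exact ⟨u, rfl⟩
          · exact absurd rfl (hx i)
        · rintro ⟨u, rfl⟩ i hi
          have := e₀.injective hi
          simp at this
      have hinj : Function.Injective (fun u : Fin h => e₀ (Sum.inl u)) :=
        e₀.injective.comp Sum.inl_injective
      rw [← Nat.card_eq_fintype_card, Nat.card_coe_set_eq, this, Set.ncard_range_of_injective hinj]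
      simp
    let G : (Fin h ⊕ Fin (m + 1) ≃ Fin n) × Perm (Fin (m + 1)) → (Fin h → Fin n) :=
      fun x u => x.1 (Sum.inl u)
    have hG : ∀ x ∈ (s.filter fun x => F x = y), ∃ f : Fin h ↪ R, ∀ u, (f u : Fin n) = G x u := by
      rintro ⟨e, ν⟩ hx
      have hx' := (hr e ν (Finset.mem_filter.mp hx).2).1
      refine ⟨⟨fun u => ⟨e (Sum.inl u), ?_⟩, ?_⟩, fun u => rfl⟩
      · intro i hi
        rw [← hx' i] at hi
        have := e.injective hi
        simp at this
      · intro u u' huu
        simp only [Subtype.mk.injEq] at huu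
        exact Sum.inl_injective (e.injective huu)
    have hne : Nonempty (Fin h ↪ R) := ⟨(hG _ h0).choose⟩
    choose! f hfG using hG
    have hcard : (s.filter fun x => F x = y).card ≤ Fintype.card (Fin h ↪ R) := by
      rw [← Finset.card_univ]
      refine Finset.card_le_card_of_injOn f (fun _ _ => Finset.mem_univ _) ?_
      rintro ⟨e, ν⟩ hx ⟨e', ν'⟩ hx' hff
      have hx1 : (e, ν) ∈ (s.filter fun x => F x = y) := by simpa using hx
      have hx2 : (e', ν') ∈ (s.filter fun x => F x = y) := by simpa using hx'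
      have r1 := hr e ν (Finset.mem_filter.mp hx1).2
      have r2 := hr e' ν' (Finset.mem_filter.mp hx2).2
      have he : e = e' := by
        ext v
        congr 1
        rcases v with u | i
        · have q1 := hfG _ hx1 u
          have q2 := hfG _ hx2 u
          rw [hff] at q1
          have : G (e, ν) u = G (e', ν') u := q1.symm.trans q2
          exact this
        · rw [r1.1 i, r2.1 i]
      rw [he, r1.2, r2.2]
    rw [Fintype.card_embedding_eq, Fintype.card_fin, hR, Nat.descFactorial_self] at hcard
    exact hcard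
  have hmain := Finset.card_le_mul_card_image_of_maps_to hmaps h.factorial hfib
  rw [hs, ht] at hmain
  calc n.factorial * Mt (m + 1) ≤ h.factorial * ((Bad P n).ncard * n) := hmain
    _ = h.factorial * (n * (Bad P n).ncard) := by ring

/-- one bad graph with `2 k` vertices gives many with `2 l` vertices -/
theorem many {k l : ℕ} (hkl : k ≤ l) (hbad : (Bad P (2 * k)).Nonempty) :
    (Cubic (2 * l)).ncard ≤
      (2 * k).factorial * ((2 * l) ^ (k + 1) * (Bad P (2 * l)).ncard) := by
  rw [ncard_cubic]
  have hk : 0 < k := by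
    rcases Nat.eq_zero_or_pos k with h0 | h0
    · subst h0
      obtain ⟨p, _, _, hf⟩ := hbad
      exact absurd ⟨fun v => v.elim0, fun v => v.elim0, fun v => v.elim0, fun v => v.elim0,
        fun v => v.elim0⟩ hf
    · exact h0
  rcases Nat.eq_or_lt_of_le hkl with he | hlt
  · subst he
    have h1 : 1 ≤ (Bad P (2 * k)).ncard := by
      rw [Nat.succ_le_iff, Set.ncard_pos (Set.toFinite _)]
      exact hbad
    have h2 := Mt_le k k le_rfl
    have h3 : Mt (2 * (k - k)) = 1 := by
      rw [Nat.sub_self]
      have := Mt_mul 0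
      simpa using this
    rw [h3, mul_one] at h2
    apply Nat.mul_le_mul_left
    calc Mt (2 * k) ≤ (2 * k) ^ k := h2
      _ ≤ (2 * k) ^ (k + 1) := Nat.pow_le_pow_right (by omega) (by omega)
      _ = (2 * k) ^ (k + 1) * 1 := by ring
      _ ≤ (2 * k) ^ (k + 1) * (Bad P (2 * k)).ncard := Nat.mul_le_mul_left _ h1
  · obtain ⟨m, hm⟩ : ∃ m, m + 1 = 2 * (l - k) := ⟨2 * (l - k) - 1, by omega⟩
    have h1 := count_plant P (h := 2 * k) (m := m) (n := 2 * l) (by omega) hbad
    rw [hm] at h1
    have h2 := Mt_le k l hkl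
    calc (2 * l).factorial * Mt (2 * l)
        ≤ (2 * l).factorial * ((2 * l) ^ k * Mt (2 * (l - k))) := Nat.mul_le_mul_left _ h2
      _ = (2 * l) ^ k * ((2 * l).factorial * Mt (2 * (l - k))) := by ring
      _ ≤ (2 * l) ^ k * ((2 * k).factorial * (2 * l * (Bad P (2 * l)).ncard)) :=
          Nat.mul_le_mul_left _ h1
      _ = (2 * k).factorial * ((2 * l) ^ (k + 1) * (Bad P (2 * l)).ncard) := by ring

end Plant

end Pool.Agent.Helper86.Flow
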