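import Pool.Agent.Helper86.Flow.Many

/-!
# The zero-one law
-/

set_option autoImplicit false

namespace Pool.Agent.Helper86.Flow

open Equiv Filter

variable {A : Type*} [AddCommGroup A] (P : A → Prop) {r : ℕ}

theorem even_of_bad {n : ℕ} (h : (BadR P r n).Nonempty) : ∃ k, n = 2 * k := by
  obtain ⟨p, hp, _⟩ := h
  obtain ⟨l, hl, _⟩ := (isMatching_iff p.2).mp hp
  exact ⟨l, hl⟩

theorem eventually_many (hr2 : 2 ≤ r) (hr3 : r ≤ 3) (hP : ∀ x, P x → P (-x)) {n : ℕ}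
    (h : (BadR P r n).Nonempty) :
    ∃ C : ℕ, ∀ᶠ l : ℕ in atTop,
      (Cubic (2 * l)).ncard ≤ (2 * l) ^ C * (BadR P r (2 * l)).ncard := by
  obtain ⟨k, rfl⟩ := even_of_bad P h
  refine ⟨k + 2, ?_⟩
  filter_upwards [eventually_ge_atTop (max k (2 * k - 1).factorial)] with l hl
  have h1 := manyR P (k := k) (l := l) hr2 hr3 hP (le_trans (le_max_left _ _) hl) h
  have h2 : (2 * k - 1).factorial ≤ 2 * l := by
    have := le_trans (le_max_right k (2 * k - 1).factorial) hl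
    omega
  calc (Cubic (2 * l)).ncard
      ≤ (2 * k - 1).factorial * ((2 * l) ^ (k + 1) * (BadR P r (2 * l)).ncard) := h1
    _ ≤ (2 * l) * ((2 * l) ^ (k + 1) * (BadR P r (2 * l)).ncard) := Nat.mul_le_mul_right _ h2
    _ = (2 * l) ^ (k + 2) * (BadR P r (2 * l)).ncard := by ring

theorem dichotomy (hr2 : 2 ≤ r) (hr3 : r ≤ 3) (hP : ∀ x, P x → P (-x)) :
    (∀ n, BadR P r n = ∅) ∨ ∃ C : ℕ, ∀ᶠ l : ℕ in atTop,
      (Cubic (2 * l)).ncard ≤ (2 * l) ^ C * (BadR P r (2 * l)).ncard := by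
  by_cases h : ∀ n, BadR P r n = ∅
  · exact Or.inl h
  · right
    push Not at h
    obtain ⟨n, hn⟩ := h
    exact eventually_many P hr2 hr3 hP hn

theorem criterion (hr2 : 2 ≤ r) (hr3 : r ≤ 3) (hP : ∀ x, P x → P (-x)) :
    (∀ n, BadR P r n = ∅) ↔ ∀ C : ℕ, ∃ᶠ l : ℕ in atTop,
      (2 * l) ^ C * (BadR P r (2 * l)).ncard < (Cubic (2 * l)).ncard := by
  constructor
  · intro h C
    refine (Filter.Eventually.of_forall fun l => ?_).frequently
    rw [h, Set.ncard_empty, mul_zero, ncard_cubic_even]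
    have h1 := Nat.factorial_pos (2 * l)
    have h2 := Nat.doubleFactorial_pos (2 * l - 1)
    positivity
  · intro h
    rcases dichotomy P hr2 hr3 hP with h1 | ⟨C, hC⟩
    · exact h1
    · exfalso
      obtain ⟨l, hl1, hl2⟩ := ((h C).and_eventually hC).exists
      omega

end Pool.Agent.Helper86.Flow
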