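import Pool.Agent.Helper86.Flow.Three

/-!
# One bad graph gives many bad graphs of the same edge connectivity
-/

set_option autoImplicit false
set_option linter.unusedSectionVars false

namespace Pool.Agent.Helper86.Flow

open Equiv Finset

/-- the pairs whose graph is `r`-edge-connected and has no flow with values in `P` -/
def BadR {A : Type*} [AddCommGroup A] (P : A → Prop) (r n : ℕ) :
    Set (Perm (Fin n) × Perm (Fin n)) :=
  {p | IsMatching p.2 ∧ Conn r p.1 p.2 ∧ ¬ HasFlow P p.1 p.2}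

theorem conn_congr {V W : Type*} (e : V ≃ W) {π μ : Perm V} {r : ℕ} (h : Conn r π μ) :
    Conn r (e.permCongr π) (e.permCongr μ) := by
  intro S hS1 hS2
  rw [cut_congr]
  apply h
  · obtain ⟨w, hw⟩ := hS1
    exact ⟨e.symm w, by simpa using hw⟩
  · intro hu
    apply hS2
    ext w
    have : e.symm w ∈ e ⁻¹' S := by rw [hu]; trivial
    simpa using this

theorem restr {U : Type*} [Finite U] (σ : Perm (U ⊕ Fin 1)) (h : σ (Sum.inr 0) = Sum.inr 0) :
    ∃ π : Perm U, σ = Equiv.sumCongr π 1 := by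
  have h1 : Set.MapsTo σ (Set.range Sum.inl) (Set.range Sum.inl) := by
    rintro _ ⟨u, rfl⟩
    rcases hs : σ (Sum.inl u) with u' | i
    · exact ⟨u', rfl⟩
    · have hi : i = 0 := Subsingleton.elim _ _
      rw [hi, ← h] at hs
      have := σ.injective hs
      simp at this
  obtain ⟨⟨π, ρ⟩, hπ⟩ := Perm.mem_sumCongrHom_range_of_perm_mapsTo_inl h1
  refine ⟨π, ?_⟩
  have hρ : ρ = 1 := Subsingleton.elim _ _
  rw [← hπ, hρ]
  rfl

theorem extract {A : Type*} [AddCommGroup A] (P : A → Prop) {r u : ℕ} (hr : 2 ≤ r)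
    (h : (BadR P r (u + 1)).Nonempty) :
    ∃ (π : Perm (Fin u)) (b d : Fin u) (μ₀ : Perm (Fin u)), μ₀ d = d ∧ (∀ v, v ≠ d → μ₀ v ≠ v) ∧
      (∀ v, μ₀ (μ₀ v) = v) ∧ (Fam r π b d μ₀ 0).Nonempty ∧
      ¬ HasFlow P (path 0 π b) (base μ₀ d) := by
  obtain ⟨⟨p1, p2⟩, hm, hc, hf⟩ := h
  simp only at hm hc hf
  obtain ⟨e, _⟩ : ∃ e : Fin (u + 1) ≃ Fin u ⊕ Fin 1, e = finSumFinEquiv.symm := ⟨_, rfl⟩
  obtain ⟨σ, hσ⟩ : ∃ σ, σ = e.permCongr p1 := ⟨_, rfl⟩
  obtain ⟨τ, hτ⟩ : ∃ τ, τ = e.permCongr p2 := ⟨_, rfl⟩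
  have hm' : IsMatching τ := by rw [hτ]; exact (isMatching_congr e p2).mpr hm
  have hc' : Conn r σ τ := by rw [hσ, hτ]; exact conn_congr e hc
  have hf' : ¬ HasFlow P σ τ := by
    intro h1
    rw [hσ, hτ] at h1
    exact hf (hasFlow_of_congr e _ _ P h1)
  -- the neighbour in the matching
  obtain ⟨d, hd⟩ : ∃ d, τ (Sum.inr 0) = Sum.inl d := by
    rcases h1 : τ (Sum.inr 0) with d | i
    · exact ⟨d, rfl⟩
    · have hi : i = 0 := Subsingleton.elim _ _
      rw [hi] at h1
      exact absurd h1 (hm' _).1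
  have hd' : τ (Sum.inl d) = Sum.inr 0 := by rw [← hd, (hm' _).2]
  -- no loop at the vertex
  have hloop : σ (Sum.inr 0) ≠ Sum.inr 0 := by
    intro hl
    have h1 := hc' {Sum.inr 0} (Set.singleton_nonempty _) (by
      intro hu
      have : (Sum.inl d : Fin u ⊕ Fin 1) ∈ ({Sum.inr 0} : Set (Fin u ⊕ Fin 1)) := by
        rw [hu]; trivial
      simp at this)
    have e1 : {v : Fin u ⊕ Fin 1 | v ∈ ({Sum.inr 0} : Set (Fin u ⊕ Fin 1)) ∧
        σ v ∉ ({Sum.inr 0} : Set (Fin u ⊕ Fin 1))} = ∅ := by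
      ext v
      constructor
      · rintro ⟨h2, h3⟩
        rw [Set.mem_singleton_iff.mp h2] at h3
        exact absurd hl h3
      · intro h2
        exact absurd h2 (Set.notMem_empty _)
    have e2 : {v : Fin u ⊕ Fin 1 | v ∉ ({Sum.inr 0} : Set (Fin u ⊕ Fin 1)) ∧
        σ v ∈ ({Sum.inr 0} : Set (Fin u ⊕ Fin 1))} = ∅ := by
      ext v
      constructor
      · rintro ⟨h2, h3⟩
        have h4 : σ v = Sum.inr 0 := h3
        rw [← hl] at h4
        exact absurd (σ.injective h4) h2
      · intro h2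
        exact absurd h2 (Set.notMem_empty _)
    have e3 : {v : Fin u ⊕ Fin 1 | v ∈ ({Sum.inr 0} : Set (Fin u ⊕ Fin 1)) ∧
        τ v ∉ ({Sum.inr 0} : Set (Fin u ⊕ Fin 1))}.ncard ≤ 1 := by
      have e4 := Set.ncard_singleton (Sum.inr 0 : Fin u ⊕ Fin 1)
      have e5 := Set.ncard_le_ncard (s := {v : Fin u ⊕ Fin 1 |
        v ∈ ({Sum.inr 0} : Set (Fin u ⊕ Fin 1)) ∧ τ v ∉ ({Sum.inr 0} : Set (Fin u ⊕ Fin 1))})
        (t := {Sum.inr 0}) (fun v hv => hv.1) (Set.toFinite _)
      omega
    unfold cut at h1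
    rw [e1, e2, Set.ncard_empty] at h1
    omega
  obtain ⟨b, hb⟩ : ∃ b, σ (Sum.inl b) = Sum.inr 0 := by
    rcases h1 : σ.symm (Sum.inr 0) with b | i
    · exact ⟨b, by rw [← h1, Equiv.apply_symm_apply]⟩
    · have hi : i = 0 := Subsingleton.elim _ _
      rw [hi, Equiv.symm_apply_eq] at h1
      exact absurd h1.symm hloop
  -- the permutation
  obtain ⟨π, hπ⟩ := restr (σ * Equiv.swap (Sum.inl b) (Sum.inr 0)) (by
    rw [Perm.mul_apply, Equiv.swap_apply_right, hb])
  have hσ' : σ = path 0 π b := by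
    have h1 : σ = Equiv.sumCongr π 1 * Equiv.swap (Sum.inl b) (Sum.inr 0) := by
      rw [← hπ, mul_assoc, Equiv.swap_mul_self, mul_one]
    rw [h1]
    unfold path plantP
    have h2 : (1 * finRotate (0 + 1) * 1⁻¹ : Perm (Fin (0 + 1))) = 1 := by
      ext i
      have := ((1 * finRotate (0 + 1) * 1⁻¹ : Perm (Fin (0 + 1))) i).isLt
      have := i.isLt
      simp only [Perm.one_apply]
      omega
    rw [h2]
    rfl
  obtain ⟨μ₀, hμ₀⟩ := restr (τ * Equiv.swap (Sum.inl d) (Sum.inr 0)) (by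
    rw [Perm.mul_apply, Equiv.swap_apply_right, hd'])
  have hτ' : τ = base μ₀ d := by
    unfold base
    rw [← hμ₀, mul_assoc, Equiv.swap_mul_self, mul_one]
  have hμd : μ₀ d = d := by
    have h1 := congrArg (fun p : Perm (Fin u ⊕ Fin 1) => p (Sum.inl d)) hμ₀
    simp only [Perm.mul_apply, Equiv.swap_apply_left, hd] at h1
    exact (Sum.inl_injective h1).symm
  have hτu : ∀ v, v ≠ d → τ (Sum.inl v) = Sum.inl (μ₀ v) := by
    intro v hv
    have h1 := congrArg (fun p : Perm (Fin u ⊕ Fin 1) => p (Sum.inl v)) hμ₀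
    simp only [Perm.mul_apply] at h1
    rw [Equiv.swap_apply_of_ne_of_ne (by simpa using hv) (by simp)] at h1
    exact h1
  refine ⟨π, b, d, μ₀, hμd, fun v hv h1 => ?_, fun v => ?_, ⟨τ, hm', by rw [← hσ']; exact hc',
    hτu⟩, by rw [← hσ', ← hτ']; exact hf'⟩
  · have h2 := hτu v hv
    rw [h1] at h2
    exact (hm' _).1 h2
  · by_cases hv : v = d
    · rw [hv, hμd, hμd]
    · have h1 : μ₀ v ≠ d := by
        intro h2
        rw [← hμd] at h2
        exact hv (μ₀.injective h2)
      have h2 := (hm' (Sum.inl v)).2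
      rw [hτu v hv, hτu _ h1] at h2
      exact Sum.inl_injective h2

section Count

variable {A : Type*} [AddCommGroup A] (P : A → Prop)

open scoped Classical in
theorem count_fam {u m n r : ℕ} (hn : u + (m + 1) = n) {π : Perm (Fin u)} {b d : Fin u}
    {μ₀ : Perm (Fin u)} (hP : ∀ x, P x → P (-x)) (hd : μ₀ d = d) (hμ1 : ∀ v, v ≠ d → μ₀ v ≠ v)
    (hμ2 : ∀ v, μ₀ (μ₀ v) = v) (hf : ¬ HasFlow P (path 0 π b) (base μ₀ d)) :
    n.factorial * (Fam r π b d μ₀ m).ncard ≤ u.factorial * (n * (BadR P r n).ncard) := by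
  let s : Finset ((Fin u ⊕ Fin (m + 1) ≃ Fin n) × Perm (Fin u ⊕ Fin (m + 1))) :=
    Finset.univ ×ˢ Finset.univ.filter (fun μ => μ ∈ Fam r π b d μ₀ m)
  let F : (Fin u ⊕ Fin (m + 1) ≃ Fin n) × Perm (Fin u ⊕ Fin (m + 1)) →
      (Perm (Fin n) × Perm (Fin n)) × Fin n := fun x =>
    ((x.1.permCongr (path m π b), x.1.permCongr x.2), x.1 (Sum.inl b))
  let t : Finset ((Perm (Fin n) × Perm (Fin n)) × Fin n) :=
    (Finset.univ.filter (fun p => p ∈ BadR P r n)) ×ˢ Finset.univ
  have hs : s.card = n.factorial * (Fam r π b d μ₀ m).ncard := by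
    rw [Finset.card_product]
    congr 1
    · rw [Finset.card_univ]
      have e0 : Fin u ⊕ Fin (m + 1) ≃ Fin n := finSumFinEquiv.trans (finCongr hn)
      rw [Fintype.card_equiv e0]
      congr 1
      rw [Fintype.card_sum, Fintype.card_fin, Fintype.card_fin, hn]
    · rw [← Set.ncard_coe_finset]
      congr 1
      ext ν
      simp
  have ht : t.card = (BadR P r n).ncard * n := by
    rw [Finset.card_product, Finset.card_univ, Fintype.card_fin]
    congr 1
    rw [← Set.ncard_coe_finset]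
    congr 1
    ext p
    simp
  have hmaps : ∀ x ∈ s, F x ∈ t := by
    rintro ⟨e, μ⟩ hx
    have hμ : μ ∈ Fam r π b d μ₀ m := by
      have := (Finset.mem_product.mp hx).2
      simpa using this
    refine Finset.mem_product.mpr ⟨?_, Finset.mem_univ _⟩
    simp only [Finset.mem_filter, Finset.mem_univ, true_and, F]
    refine ⟨(isMatching_congr e _).mpr hμ.1, conn_congr e hμ.2.1, fun hfl => ?_⟩
    exact hf (hasFlow_of_fam P hP hd hμ1 hμ2 hμ (hasFlow_of_congr e _ _ P hfl))
  have hfib : ∀ y ∈ t, (s.filter fun x => F x = y).card ≤ u.factorial := by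
    intro y _
    rcases (s.filter fun x => F x = y).eq_empty_or_nonempty with he | ⟨⟨e₀, ν₀⟩, h0⟩
    · rw [he, Finset.card_empty]
      exact Nat.zero_le _
    have h0' : F (e₀, ν₀) = y := (Finset.mem_filter.mp h0).2
    have hr : ∀ e ν, F (e, ν) = y → ∀ i, e (Sum.inr i) = e₀ (Sum.inr i) := by
      intro e ν hF
      have hF' : F (e, ν) = F (e₀, ν₀) := hF.trans h0'.symm
      simp only [F, Prod.mk.injEq] at hF'
      obtain ⟨⟨g1, g2⟩, g3⟩ := hF'
      have gp : ∀ v, e (path m π b v) = e₀ (path m π b (e₀.symm (e v))) := by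
        intro v
        have := congrArg (fun p : Perm (Fin n) => p (e v)) g1
        simpa [Equiv.permCongr_apply] using this
      intro i
      induction i using Fin.induction with
      | zero =>
        have h1 := gp (Sum.inl b)
        rw [g3, Equiv.symm_apply_apply, path_b] at h1
        exact h1
      | succ i ih =>
        have h1 := gp (Sum.inr i.castSucc)
        rw [path_cast, ih, Equiv.symm_apply_apply, path_cast] at h1
        exact h1
    -- the matching is determined by the labels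
    have hr2 : ∀ e ν ν', F (e, ν) = y → F (e, ν') = y → ν = ν' := by
      intro e ν ν' h1 h2
      have h3 := h1.trans h2.symm
      simp only [F, Prod.mk.injEq] at h3
      exact e.permCongr.injective h3.1.2
    -- embed the fibre in the embeddings of the old vertices
    let R : Set (Fin n) := {x | ∀ i, x ≠ e₀ (Sum.inr i)}
    have hR : Fintype.card R = u := by
      have : R = Set.range (fun v : Fin u => e₀ (Sum.inl v)) := by
        ext x
        constructor
        · intro hx
          obtain ⟨v, rfl⟩ := e₀.surjective x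
          rcases v with v | i
          · exact ⟨v, rfl⟩
          · exact absurd rfl (hx i)
        · rintro ⟨v, rfl⟩ i hi
          have := e₀.injective hi
          simp at this
      have hinj : Function.Injective (fun v : Fin u => e₀ (Sum.inl v)) :=
        e₀.injective.comp Sum.inl_injective
      rw [← Nat.card_eq_fintype_card, Nat.card_coe_set_eq, this, Set.ncard_range_of_injective hinj]
      simp
    let G : (Fin u ⊕ Fin (m + 1) ≃ Fin n) × Perm (Fin u ⊕ Fin (m + 1)) → (Fin u → Fin n) :=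
      fun x v => x.1 (Sum.inl v)
    have hG : ∀ x ∈ (s.filter fun x => F x = y), ∃ f : Fin u ↪ R, ∀ v, (f v : Fin n) = G x v := by
      rintro ⟨e, ν⟩ hx
      have hx' := hr e ν (Finset.mem_filter.mp hx).2
      refine ⟨⟨fun v => ⟨e (Sum.inl v), ?_⟩, ?_⟩, fun v => rfl⟩
      · intro i hi
        rw [← hx' i] at hi
        have := e.injective hi
        simp at this
      · intro v v' hvv
        simp only [Subtype.mk.injEq] at hvv
        exact Sum.inl_injective (e.injective hvv)
    have hne : Nonempty (Fin u ↪ R) := ⟨(hG _ h0).choose⟩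
    choose! f hfG using hG
    have hcard : (s.filter fun x => F x = y).card ≤ Fintype.card (Fin u ↪ R) := by
      rw [← Finset.card_univ]
      refine Finset.card_le_card_of_injOn f (fun _ _ => Finset.mem_univ _) ?_
      rintro ⟨e, ν⟩ hx ⟨e', ν'⟩ hx' hff
      have hx1 : (e, ν) ∈ (s.filter fun x => F x = y) := by simpa using hx
      have hx2 : (e', ν') ∈ (s.filter fun x => F x = y) := by simpa using hx'
      have k1 := (Finset.mem_filter.mp hx1).2
      have k2 := (Finset.mem_filter.mp hx2).2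
      have r1 := hr e ν k1
      have r2 := hr e' ν' k2
      have he : e = e' := by
        ext v
        congr 1
        rcases v with v | i
        · have q1 := hfG _ hx1 v
          have q2 := hfG _ hx2 v
          rw [hff] at q1
          have : G (e, ν) v = G (e', ν') v := q1.symm.trans q2
          exact this
        · rw [r1 i, r2 i]
      subst he
      rw [hr2 e ν ν' k1 k2]
    rw [Fintype.card_embedding_eq, Fintype.card_fin, hR, Nat.descFactorial_self] at hcard
    exact hcard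
  have hmain := Finset.card_le_mul_card_image_of_maps_to hmaps u.factorial hfib
  rw [hs, ht] at hmain
  calc n.factorial * (Fam r π b d μ₀ m).ncard ≤ u.factorial * ((BadR P r n).ncard * n) := hmain
    _ = u.factorial * (n * (BadR P r n).ncard) := by ring

/-- one bad graph with `2 k` vertices gives many with `2 l` vertices -/
theorem manyR {r k l : ℕ} (hr2 : 2 ≤ r) (hr3 : r ≤ 3) (hP : ∀ x, P x → P (-x)) (hkl : k ≤ l)
    (hbad : (BadR P r (2 * k)).Nonempty) :
    (Cubic (2 * l)).ncard ≤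
      (2 * k - 1).factorial * ((2 * l) ^ (k + 1) * (BadR P r (2 * l)).ncard) := by
  rw [ncard_cubic]
  have hk : 0 < k := by
    rcases Nat.eq_zero_or_pos k with h0 | h0
    · subst h0
      obtain ⟨p, _, _, hf⟩ := hbad
      exact absurd ⟨fun v => v.elim0, fun v => v.elim0, fun v => v.elim0, fun v => v.elim0,
        fun v => v.elim0⟩ hf
    · exact h0
  obtain ⟨u, hu⟩ : ∃ u, 2 * k = u + 1 := ⟨2 * k - 1, by omega⟩
  rw [hu] at hbad
  obtain ⟨π, b, d, μ₀, h1, h2, h3, h4, h5⟩ := extract P hr2 hbad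
  have h6 := count_fam P (u := u) (m := 2 * (l - k)) (n := 2 * l) (r := r) (by omega) hP h1 h2 h3 h5
  have h7 := fam_count hr3 π b d μ₀ h4 (l - k)
  have h8 := Mt_le k l hkl
  have h9 : 2 * k - 1 = u := by omega
  rw [h9]
  calc (2 * l).factorial * Mt (2 * l)
      ≤ (2 * l).factorial * ((2 * l) ^ k * Mt (2 * (l - k))) := Nat.mul_le_mul_left _ h8
    _ ≤ (2 * l).factorial * ((2 * l) ^ k * (Fam r π b d μ₀ (2 * (l - k))).ncard) :=
        Nat.mul_le_mul_left _ (Nat.mul_le_mul_left _ h7)
    _ = (2 * l) ^ k * ((2 * l).factorial * (Fam r π b d μ₀ (2 * (l - k))).ncard) := by ring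
    _ ≤ (2 * l) ^ k * (u.factorial * (2 * l * (BadR P r (2 * l)).ncard)) :=
        Nat.mul_le_mul_left _ h6
    _ = u.factorial * ((2 * l) ^ (k + 1) * (BadR P r (2 * l)).ncard) := by ring

end Count

end Pool.Agent.Helper86.Flow
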