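import Pool.Agent.Helper86.Flow.Count

/-!
# Replacing a vertex by a path with chords, keeping the edge connectivity
-/

set_option autoImplicit false
set_option linter.unusedSectionVars false

namespace Pool.Agent.Helper86.Flow

open Equiv Finset

/-- every edge cut has at least `r` edges -/
def Conn {V : Type*} (r : ℕ) (π μ : Perm V) : Prop :=
  ∀ S : Set V, S.Nonempty → S ≠ Set.univ → r ≤ cut π μ S

/-! ### Cuts -/

theorem cut_compl {V : Type*} [Finite V] {π μ : Perm V} (hμ : IsMatching μ) (S : Set V) :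
    cut π μ Sᶜ = cut π μ S := by
  unfold cut
  have e1 : {v | v ∈ Sᶜ ∧ π v ∉ Sᶜ} = {v | v ∉ S ∧ π v ∈ S} := by
    ext v
    simp
  have e2 : {v | v ∉ Sᶜ ∧ π v ∈ Sᶜ} = {v | v ∈ S ∧ π v ∉ S} := by
    ext v
    simp
  have e3 : {v | v ∈ Sᶜ ∧ μ v ∉ Sᶜ}.ncard = {v | v ∈ S ∧ μ v ∉ S}.ncard := by
    rw [← Set.ncard_image_of_injective {v | v ∈ S ∧ μ v ∉ S} μ.injective]
    congr 1
    ext v
    constructor
    · rintro ⟨h1, h2⟩
      refine ⟨μ v, ⟨by simpa using h2, ?_⟩, (hμ v).2⟩
      rw [(hμ v).2]
      exact h1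
    · rintro ⟨w, ⟨h1, h2⟩, rfl⟩
      refine ⟨h2, ?_⟩
      rw [(hμ w).2]
      simpa using h1
  rw [e1, e2, e3]
  omega

/-- subdividing edges and adding edges does not make cuts smaller -/
theorem cut_sub {V W : Type*} [Finite W] (ι : V → W) (hι : Function.Injective ι) (π μ : Perm V)
    (π' μ' : Perm W)
    (h1 : ∀ v, π' (ι v) = ι (π v) ∨ ((∀ w, π' (ι v) ≠ ι w) ∧ π' (π' (ι v)) = ι (π v)))
    (h2 : ∀ v, μ' (ι v) = ι (μ v)) (S : Set W) : cut π μ (ι ⁻¹' S) ≤ cut π' μ' S := by
  classical
  unfold cut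
  have a1 : {v | v ∈ ι ⁻¹' S ∧ π v ∉ ι ⁻¹' S}.ncard ≤ {v | v ∈ S ∧ π' v ∉ S}.ncard := by
    refine Set.ncard_le_ncard_of_injOn
      (fun v => if π' (ι v) ∈ S then π' (ι v) else ι v) ?_ ?_ (Set.toFinite _)
    · rintro v ⟨hv1, hv2⟩
      simp only [Set.mem_preimage] at hv1 hv2
      by_cases h : π' (ι v) ∈ S
      · simp only [h, if_true]
        rcases h1 v with h3 | ⟨_, h4⟩
        · rw [h3] at h
          exact absurd h hv2
        · exact ⟨h, by rw [h4]; exact hv2⟩
      · simp only [h, if_false]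
        exact ⟨hv1, h⟩
    · rintro v ⟨hv1, hv2⟩ w ⟨hw1, hw2⟩ hvw
      simp only [Set.mem_preimage] at hv1 hv2 hw1 hw2
      have key : ∀ v w : V, π (v) ∉ ι ⁻¹' S → π' (ι v) ∈ S → π' (ι v) ≠ ι w := by
        intro v w hv h
        rcases h1 v with h3 | ⟨h4, _⟩
        · rw [h3] at h
          exact absurd h hv
        · exact h4 w
      by_cases h : π' (ι v) ∈ S <;> by_cases h' : π' (ι w) ∈ S
      · simp only [h, h', if_true] at hvw
        exact hι (π'.injective hvw)
      · simp only [h, h', if_true, if_false] at hvw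
        exact absurd hvw (key v w hv2 h)
      · simp only [h, h', if_true, if_false] at hvw
        exact absurd hvw.symm (key w v hw2 h')
      · simp only [h, h', if_false] at hvw
        exact hι hvw
  have a2 : {v | v ∉ ι ⁻¹' S ∧ π v ∈ ι ⁻¹' S}.ncard ≤ {v | v ∉ S ∧ π' v ∈ S}.ncard := by
    refine Set.ncard_le_ncard_of_injOn
      (fun v => if π' (ι v) ∈ S then ι v else π' (ι v)) ?_ ?_ (Set.toFinite _)
    · rintro v ⟨hv1, hv2⟩
      simp only [Set.mem_preimage] at hv1 hv2
      by_cases h : π' (ι v) ∈ S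
      · simp only [h, if_true]
        exact ⟨hv1, h⟩
      · simp only [h, if_false]
        rcases h1 v with h3 | ⟨_, h4⟩
        · rw [h3] at h
          exact absurd hv2 h
        · exact ⟨h, by rw [h4]; exact hv2⟩
    · rintro v ⟨hv1, hv2⟩ w ⟨hw1, hw2⟩ hvw
      simp only [Set.mem_preimage] at hv1 hv2 hw1 hw2
      have key : ∀ v w : V, π (v) ∈ ι ⁻¹' S → π' (ι v) ∉ S → π' (ι v) ≠ ι w := by
        intro v w hv h
        rcases h1 v with h3 | ⟨h4, _⟩
        · rw [h3] at h
          exact absurd hv h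
        · exact h4 w
      by_cases h : π' (ι v) ∈ S <;> by_cases h' : π' (ι w) ∈ S
      · simp only [h, h', if_true] at hvw
        exact hι hvw
      · simp only [h, h', if_true, if_false] at hvw
        exact absurd hvw.symm (key w v hw2 h')
      · simp only [h, h', if_true, if_false] at hvw
        exact absurd hvw (key v w hv2 h)
      · simp only [h, h', if_false] at hvw
        exact hι (π'.injective hvw)
  have a3 : {v | v ∈ ι ⁻¹' S ∧ μ v ∉ ι ⁻¹' S}.ncard ≤ {v | v ∈ S ∧ μ' v ∉ S}.ncard := by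
    refine Set.ncard_le_ncard_of_injOn ι ?_ hι.injOn (Set.toFinite _)
    rintro v ⟨hv1, hv2⟩
    refine ⟨hv1, ?_⟩
    rw [h2]
    exact hv2
  omega

/-- a set which consists of one or both of `x`, `y` has three leaving edges -/
theorem three_le_cut {W : Type*} [Finite W] {π μ : Perm W} {x y : W} (hxy : x ≠ y)
    (hx : π x ≠ x) (hy : π y ≠ y) (hxy1 : π x ≠ y) (hxy2 : π y ≠ x) (hμ : μ x = y) (hμ' : μ y = x)
    (S : Set W) (hS : S.Nonempty) (hSs : ∀ v ∈ S, v = x ∨ v = y) : 3 ≤ cut π μ S := by
  unfold cut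
  by_cases h1 : x ∈ S <;> by_cases h2 : y ∈ S
  · have b1 : 2 ≤ {v | v ∈ S ∧ π v ∉ S}.ncard := by
      rw [← Set.ncard_pair hxy]
      refine Set.ncard_le_ncard ?_ (Set.toFinite _)
      rintro v (rfl | rfl)
      · refine ⟨h1, fun h => ?_⟩
        rcases hSs _ h with h | h
        · exact hx h
        · exact hxy1 h
      · refine ⟨h2, fun h => ?_⟩
        rcases hSs _ h with h | h
        · exact hxy2 h
        · exact hy h
    have b2 : 1 ≤ {v | v ∉ S ∧ π v ∈ S}.ncard := by
      rw [Nat.succ_le_iff, Set.ncard_pos (Set.toFinite _)]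
      refine ⟨π.symm x, ?_, by simpa using h1⟩
      intro h
      rcases hSs _ h with h | h
      · rw [Equiv.symm_apply_eq] at h
        exact hx h.symm
      · rw [Equiv.symm_apply_eq] at h
        exact hxy2 h.symm
    omega
  · have b1 : 1 ≤ {v | v ∈ S ∧ π v ∉ S}.ncard := by
      rw [Nat.succ_le_iff, Set.ncard_pos (Set.toFinite _)]
      refine ⟨x, h1, fun h => ?_⟩
      rcases hSs _ h with h' | h'
      · exact hx h'
      · exact hxy1 h'
    have b2 : 1 ≤ {v | v ∉ S ∧ π v ∈ S}.ncard := by
      rw [Nat.succ_le_iff, Set.ncard_pos (Set.toFinite _)]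
      refine ⟨π.symm x, ?_, by simpa using h1⟩
      intro h
      rcases hSs _ h with h' | h'
      · rw [Equiv.symm_apply_eq] at h'
        exact hx h'.symm
      · rw [h'] at h
        exact h2 h
    have b3 : 1 ≤ {v | v ∈ S ∧ μ v ∉ S}.ncard := by
      rw [Nat.succ_le_iff, Set.ncard_pos (Set.toFinite _)]
      exact ⟨x, h1, by rw [hμ]; exact h2⟩
    omega
  · have b1 : 1 ≤ {v | v ∈ S ∧ π v ∉ S}.ncard := by
      rw [Nat.succ_le_iff, Set.ncard_pos (Set.toFinite _)]
      refine ⟨y, h2, fun h => ?_⟩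
      rcases hSs _ h with h' | h'
      · exact hxy2 h'
      · exact hy h'
    have b2 : 1 ≤ {v | v ∉ S ∧ π v ∈ S}.ncard := by
      rw [Nat.succ_le_iff, Set.ncard_pos (Set.toFinite _)]
      refine ⟨π.symm y, ?_, by simpa using h2⟩
      intro h
      rcases hSs _ h with h' | h'
      · rw [h'] at h
        exact h1 h
      · rw [Equiv.symm_apply_eq] at h'
        exact hy h'.symm
    have b3 : 1 ≤ {v | v ∈ S ∧ μ v ∉ S}.ncard := by
      rw [Nat.succ_le_iff, Set.ncard_pos (Set.toFinite _)]
      exact ⟨y, h2, by rw [hμ']; exact h1⟩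
    omega
  · obtain ⟨v, hv⟩ := hS
    rcases hSs v hv with rfl | rfl
    · exact absurd hv h1
    · exact absurd hv h2

/-! ### The path -/

section Path

variable {U : Type*} [DecidableEq U] {m : ℕ} (π : Perm U) (b : U)

/-- the path from `b` through `0, …, m` to `π b` -/
abbrev path (m : ℕ) (π : Perm U) (b : U) : Perm (U ⊕ Fin (m + 1)) := plantP π b 1

theorem path_inl {u : U} (hu : u ≠ b) : path m π b (Sum.inl u) = Sum.inl (π u) := plantP_inl π b 1 hu

theorem path_b : path m π b (Sum.inl b) = Sum.inr 0 := by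
  have := plantP_a (m := m) π b 1
  simpa using this

theorem path_last : path m π b (Sum.inr (Fin.last m)) = Sum.inl (π b) := by
  have := plantP_last (m := m) π b 1
  simpa using this

theorem path_cast (i : Fin m) : path m π b (Sum.inr i.castSucc) = Sum.inr i.succ := by
  have := plantP_cast (m := m) π b 1 i
  simpa using this

theorem path_val {i j : Fin (m + 1)} (h : j.val = i.val + 1) :
    path m π b (Sum.inr i) = Sum.inr j := by
  have hi : i.val < m := by have := j.isLt; omega
  have e1 : i = (⟨i.val, hi⟩ : Fin m).castSucc := Fin.ext rfl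
  have e2 : j = (⟨i.val, hi⟩ : Fin m).succ := Fin.ext (by simpa using h)
  rw [e1, path_cast, ← e2]

/-- the positions of the old vertices after the insertion of a new one before position `j` and of
another one at the end -/
def shift (j : Fin (m + 1)) (i : Fin (m + 1)) : Fin (m + 3) :=
  ⟨if i.val < j.val then i.val else i.val + 1, by
    have := i.isLt
    split_ifs <;> omega⟩

/-- the embedding of the old graph in the new one -/
def emb (j : Fin (m + 1)) : U ⊕ Fin (m + 1) → U ⊕ Fin (m + 3) := Sum.map id (shift j)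

/-- the first new vertex -/
def newY (j : Fin (m + 1)) : U ⊕ Fin (m + 3) := Sum.inr ⟨j.val, by omega⟩

/-- the second new vertex -/
def newX : U ⊕ Fin (m + 3) := Sum.inr ⟨m + 2, by omega⟩

theorem shift_injective (j : Fin (m + 1)) : Function.Injective (shift j) := by
  intro i i' h
  have h1 := congrArg Fin.val h
  simp only [shift] at h1
  apply Fin.ext
  split_ifs at h1 <;> omega

theorem emb_injective (j : Fin (m + 1)) :
    Function.Injective (emb j : U ⊕ Fin (m + 1) → U ⊕ Fin (m + 3)) :=
  Sum.map_injective.mpr ⟨Function.injective_id, shift_injective j⟩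

theorem emb_ne_newY (j : Fin (m + 1)) (v : U ⊕ Fin (m + 1)) : emb j v ≠ newY j := by
  rcases v with u | i
  · simp [emb, newY]
  · simp only [emb, newY, Sum.map_inr, ne_eq, Sum.inr.injEq, Fin.ext_iff, shift]
    split_ifs <;> omega

theorem emb_ne_newX (j : Fin (m + 1)) (v : U ⊕ Fin (m + 1)) : emb j v ≠ newX := by
  rcases v with u | i
  · simp [emb, newX]
  · simp only [emb, newX, Sum.map_inr, ne_eq, Sum.inr.injEq, Fin.ext_iff, shift]
    have := i.isLt
    split_ifs <;> omega

theorem newX_ne_newY (j : Fin (m + 1)) : (newX : U ⊕ Fin (m + 3)) ≠ newY j := by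
  simp only [newX, newY, ne_eq, Sum.inr.injEq, Fin.ext_iff]
  omega

theorem emb_or (j : Fin (m + 1)) (w : U ⊕ Fin (m + 3)) :
    (∃ v, w = emb j v) ∨ w = newX ∨ w = newY j := by
  rcases w with u | i
  · exact Or.inl ⟨Sum.inl u, rfl⟩
  · by_cases h1 : i.val < j.val
    · left
      refine ⟨Sum.inr ⟨i.val, by omega⟩, ?_⟩
      simp only [emb, Sum.map_inr, Sum.inr.injEq, Fin.ext_iff, shift, h1, if_true]
    · by_cases h2 : i.val = j.val
      · right; right
        simp only [newY, Sum.inr.injEq, Fin.ext_iff, h2]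
      · by_cases h3 : i.val = m + 2
        · right; left
          simp only [newX, Sum.inr.injEq, Fin.ext_iff, h3]
        · left
          have hi := i.isLt
          refine ⟨Sum.inr ⟨i.val - 1, by omega⟩, ?_⟩
          simp only [emb, Sum.map_inr, Sum.inr.injEq, Fin.ext_iff, shift]
          split_ifs <;> omega

theorem path_emb (j : Fin (m + 1)) (v : U ⊕ Fin (m + 1)) :
    path (m + 2) π b (emb j v) = emb j (path m π b v) ∨
      ((∀ w, path (m + 2) π b (emb j v) ≠ emb j w) ∧
        path (m + 2) π b (path (m + 2) π b (emb j v)) = emb j (path m π b v)) := by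
  rcases v with u | i
  · by_cases hu : u = b
    · subst hu
      rw [path_b]
      by_cases hj : j.val = 0
      · right
        have e1 : path (m + 2) π u (emb j (Sum.inl u)) = newY j := by
          have : (emb j (Sum.inl u) : U ⊕ Fin (m + 3)) = Sum.inl u := rfl
          rw [this, path_b]
          simp only [newY, Sum.inr.injEq, Fin.ext_iff, hj]
          rfl
        refine ⟨fun w hw => emb_ne_newY j w (hw.symm.trans e1), ?_⟩
        rw [e1]
        have e2 : (emb j (Sum.inr (0 : Fin (m + 1))) : U ⊕ Fin (m + 3)) = Sum.inr ⟨1, by omega⟩ := by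
          simp only [emb, Sum.map_inr, Sum.inr.injEq, Fin.ext_iff, shift, hj]
          simp
        rw [e2]
        exact path_val π u (by simp [hj])
      · left
        have : (emb j (Sum.inl u) : U ⊕ Fin (m + 3)) = Sum.inl u := rfl
        rw [this, path_b]
        simp only [emb, Sum.map_inr, Sum.inr.injEq, Fin.ext_iff, shift]
        have : (0 : Fin (m + 1)).val = 0 := rfl
        rw [this, if_pos (by omega)]
        rfl
    · left
      rw [path_inl π b hu]
      exact path_inl π b hu
  · have hi := i.isLt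
    have hj := j.isLt
    by_cases hlast : i.val = m
    · have e0 : i = Fin.last m := Fin.ext hlast
      right
      have e1 : path (m + 2) π b (emb j (Sum.inr i)) = newX := by
        have : (emb j (Sum.inr i) : U ⊕ Fin (m + 3)) = Sum.inr ⟨m + 1, by omega⟩ := by
          simp only [emb, Sum.map_inr, Sum.inr.injEq, Fin.ext_iff, shift]
          split_ifs <;> omega
        rw [this]
        exact path_val π b (by simp)
      refine ⟨fun w hw => emb_ne_newX j w (hw.symm.trans e1), ?_⟩
      rw [e1, e0, path_last]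
      have : (newX : U ⊕ Fin (m + 3)) = Sum.inr (Fin.last (m + 2)) := by
        simp only [newX, Sum.inr.injEq, Fin.ext_iff, Fin.val_last]
      rw [this, path_last]
      rfl
    · have e0 : path m π b (Sum.inr i) = Sum.inr ⟨i.val + 1, by omega⟩ := path_val π b (by simp)
      rw [e0]
      by_cases h1 : i.val + 1 = j.val
      · right
        have e1 : path (m + 2) π b (emb j (Sum.inr i)) = newY j := by
          simp only [emb, Sum.map_inr, newY]
          refine path_val π b ?_
          simp only [shift]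
          rw [if_pos (by omega)]
          omega
        refine ⟨fun w hw => emb_ne_newY j w (hw.symm.trans e1), ?_⟩
        rw [e1]
        simp only [emb, Sum.map_inr, newY]
        refine path_val π b ?_
        simp only [shift]
        rw [if_neg (by omega)]
        omega
      · left
        simp only [emb, Sum.map_inr]
        refine path_val π b ?_
        simp only [shift]
        split_ifs <;> omega

end Path

/-! ### The family -/

section Family

variable {U : Type*} [DecidableEq U]

/-- the matchings of the graphs obtained from the given one by replacing a vertex by a path -/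
def Fam (r : ℕ) (π : Perm U) (b d : U) (μ₀ : Perm U) (m : ℕ) : Set (Perm (U ⊕ Fin (m + 1))) :=
  {μ | IsMatching μ ∧ Conn r (path m π b) μ ∧ ∀ u, u ≠ d → μ (Sum.inl u) = Sum.inl (μ₀ u)}

/-- the matching with one more edge -/
noncomputable def ins {m : ℕ} (j : Fin (m + 1)) (μ : Perm (U ⊕ Fin (m + 1))) :
    Perm (U ⊕ Fin (m + 3)) :=
  μ.viaEmbedding ⟨emb j, emb_injective j⟩ * Equiv.swap newX (newY j)

theorem ins_emb {m : ℕ} (j : Fin (m + 1)) (μ : Perm (U ⊕ Fin (m + 1))) (v : U ⊕ Fin (m + 1)) :
    ins j μ (emb j v) = emb j (μ v) := by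
  unfold ins
  rw [Perm.mul_apply, Equiv.swap_apply_of_ne_of_ne (emb_ne_newX j v) (emb_ne_newY j v)]
  exact Perm.viaEmbedding_apply μ ⟨emb j, emb_injective j⟩ v

theorem ins_newX {m : ℕ} (j : Fin (m + 1)) (μ : Perm (U ⊕ Fin (m + 1))) :
    ins j μ newX = newY j := by
  unfold ins
  rw [Perm.mul_apply, Equiv.swap_apply_left]
  refine Perm.viaEmbedding_apply_of_notMem μ _ _ ?_
  rintro ⟨v, hv⟩
  exact emb_ne_newY j v hv

theorem ins_newY {m : ℕ} (j : Fin (m + 1)) (μ : Perm (U ⊕ Fin (m + 1))) :
    ins j μ (newY j) = newX := by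
  unfold ins
  rw [Perm.mul_apply, Equiv.swap_apply_right]
  refine Perm.viaEmbedding_apply_of_notMem μ _ _ ?_
  rintro ⟨v, hv⟩
  exact emb_ne_newX j v hv

theorem ins_matching {m : ℕ} (j : Fin (m + 1)) {μ : Perm (U ⊕ Fin (m + 1))} (h : IsMatching μ) :
    IsMatching (ins j μ) := by
  intro w
  rcases emb_or j w with ⟨v, rfl⟩ | rfl | rfl
  · rw [ins_emb, ins_emb, (h v).2]
    exact ⟨fun h1 => (h v).1 (emb_injective j h1), rfl⟩
  · rw [ins_newX, ins_newY]
    exact ⟨(newX_ne_newY j).symm, rfl⟩
  · rw [ins_newY, ins_newX]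
    exact ⟨newX_ne_newY j, rfl⟩

theorem ins_conn [Finite U] {m r : ℕ} (hr : r ≤ 3) {π : Perm U} {b : U} (j : Fin (m + 1))
    {μ : Perm (U ⊕ Fin (m + 1))} (hμ : IsMatching μ) (h : Conn r (path m π b) μ) :
    Conn r (path (m + 2) π b) (ins j μ) := by
  -- the small sets
  have hj := j.isLt
  have hx : path (m + 2) π b newX = Sum.inl (π b) := by
    have : (newX : U ⊕ Fin (m + 3)) = Sum.inr (Fin.last (m + 2)) := by
      simp only [newX, Sum.inr.injEq, Fin.ext_iff, Fin.val_last]
    rw [this, path_last]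
  have hy : path (m + 2) π b (newY j) = Sum.inr ⟨j.val + 1, by omega⟩ := path_val π b (by simp)
  have hsmall : ∀ S : Set (U ⊕ Fin (m + 3)), S.Nonempty → (∀ v ∈ S, v = newX ∨ v = newY j) →
      3 ≤ cut (path (m + 2) π b) (ins j μ) S := by
    intro S hS1 hS2
    refine three_le_cut (newX_ne_newY j) ?_ ?_ ?_ ?_ (ins_newX j μ) (ins_newY j μ) S hS1 hS2
    · rw [hx]; simp [newX]
    · rw [hy]; simp [newY]
    · rw [hx]; simp [newY]
    · rw [hy]
      simp only [newX, ne_eq, Sum.inr.injEq, Fin.ext_iff]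
      omega
  intro S hS1 hS2
  by_cases h1 : (emb j ⁻¹' S : Set (U ⊕ Fin (m + 1))).Nonempty
  · by_cases h2 : (emb j ⁻¹' S : Set (U ⊕ Fin (m + 1))) = Set.univ
    · -- the complement is small
      have h3 : 3 ≤ cut (path (m + 2) π b) (ins j μ) Sᶜ := by
        refine hsmall _ (Set.nonempty_compl.mpr hS2) ?_
        intro w hw
        rcases emb_or j w with ⟨v, rfl⟩ | h4
        · have : v ∈ (emb j ⁻¹' S : Set (U ⊕ Fin (m + 1))) := by rw [h2]; trivial
          exact absurd this hw
        · exact h4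
      rw [cut_compl (ins_matching j hμ)] at h3
      omega
    · exact (h _ h1 h2).trans (cut_sub (emb j) (emb_injective j) _ _ _ _ (path_emb π b j)
        (ins_emb j μ) S)
  · have h3 : 3 ≤ cut (path (m + 2) π b) (ins j μ) S := by
      refine hsmall _ hS1 ?_
      intro w hw
      rcases emb_or j w with ⟨v, rfl⟩ | h4
      · exact absurd ⟨v, hw⟩ h1
      · exact h4
    omega

theorem ins_mem [Finite U] {m r : ℕ} (hr : r ≤ 3) {π : Perm U} {b d : U} {μ₀ : Perm U}
    (j : Fin (m + 1)) {μ : Perm (U ⊕ Fin (m + 1))} (h : μ ∈ Fam r π b d μ₀ m) :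
    ins j μ ∈ Fam r π b d μ₀ (m + 2) := by
  refine ⟨ins_matching j h.1, ins_conn hr j h.1 h.2.1, fun u hu => ?_⟩
  have : (Sum.inl u : U ⊕ Fin (m + 3)) = emb j (Sum.inl u) := rfl
  rw [this, ins_emb, h.2.2 u hu]
  rfl

theorem ins_injective {m : ℕ} : Function.Injective
    (fun x : Fin (m + 1) × Perm (U ⊕ Fin (m + 1)) => ins x.1 x.2) := by
  rintro ⟨j, μ⟩ ⟨j', μ'⟩ h
  simp only at h
  have h1 : (newY j : U ⊕ Fin (m + 3)) = newY j' := by rw [← ins_newX j μ, h, ins_newX]
  have h2 : j = j' := by
    simp only [newY, Sum.inr.injEq, Fin.ext_iff] at h1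
    exact Fin.ext h1
  subst h2
  have h3 : μ = μ' := by
    ext v
    apply emb_injective j
    rw [← ins_emb, h, ins_emb]
  rw [h3]

theorem fam_succ [Finite U] {r : ℕ} (hr : r ≤ 3) (π : Perm U) (b d : U) (μ₀ : Perm U) (m : ℕ) :
    (m + 1) * (Fam r π b d μ₀ m).ncard ≤ (Fam r π b d μ₀ (m + 2)).ncard := by
  have h1 : ((Set.univ : Set (Fin (m + 1))) ×ˢ (Fam r π b d μ₀ m)).ncard =
      (m + 1) * (Fam r π b d μ₀ m).ncard := by
    rw [Set.ncard_prod, Set.ncard_univ, Nat.card_eq_fintype_card, Fintype.card_fin]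
  rw [← h1]
  refine Set.ncard_le_ncard_of_injOn (fun x => ins x.1 x.2) ?_ ins_injective.injOn (Set.toFinite _)
  rintro ⟨j, μ⟩ ⟨_, hμ⟩
  exact ins_mem hr j hμ

theorem fam_count [Finite U] {r : ℕ} (hr : r ≤ 3) (π : Perm U) (b d : U) (μ₀ : Perm U)
    (h0 : (Fam r π b d μ₀ 0).Nonempty) (i : ℕ) : Mt (2 * i) ≤ (Fam r π b d μ₀ (2 * i)).ncard := by
  induction i with
  | zero =>
    have h1 := Mt_mul 0
    simp only [mul_zero, pow_zero, Nat.factorial_zero, mul_one] at h1
    rw [mul_zero, h1, Nat.succ_le_iff, Set.ncard_pos (Set.toFinite _)]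
    exact h0
  | succ i ih =>
    rw [Mt_succ]
    exact (Nat.mul_le_mul_left _ ih).trans (fam_succ hr π b d μ₀ (2 * i))

/-! ### Flows -/

/-- the matching of the original graph -/
def base (μ₀ : Perm U) (d : U) : Perm (U ⊕ Fin 1) :=
  Equiv.sumCongr μ₀ 1 * Equiv.swap (Sum.inl d) (Sum.inr 0)

theorem hasFlow_of_fam [Fintype U] {A : Type*} [AddCommGroup A] (P : A → Prop)
    (hP : ∀ x, P x → P (-x)) {m r : ℕ}
    {π : Perm U} {b d : U} {μ₀ : Perm U} (hd : μ₀ d = d) (hμ1 : ∀ u, u ≠ d → μ₀ u ≠ u)
    (hμ2 : ∀ u, μ₀ (μ₀ u) = u) {μ : Perm (U ⊕ Fin (m + 1))} (h : μ ∈ Fam r π b d μ₀ m)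
    (hf : HasFlow P (path m π b) μ) : HasFlow P (path 0 π b) (base μ₀ d) := by
  obtain ⟨f, g, hfg, hg, hf⟩ := hf
  obtain ⟨hm, _, hmu⟩ := h
  -- along the path
  have hpath : ∀ i : Fin (m + 1), f (Sum.inr i) =
      f (Sum.inl b) - ∑ j ∈ Finset.univ.filter (fun j => j ≤ i), g (Sum.inr j) := by
    intro i
    induction i using Fin.induction with
    | zero =>
      have h1 := hf (Sum.inl b)
      rw [path_b] at h1
      have e : (Finset.univ.filter fun j : Fin (m + 1) => j ≤ 0) = {0} := by
        ext j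
        simp
      rw [e, Finset.sum_singleton, ← h1]
      abel
    | succ i ih =>
      have h1 := hf (Sum.inr i.castSucc)
      rw [path_cast] at h1
      have e : (Finset.univ.filter fun j : Fin (m + 1) => j ≤ i.succ) =
          insert i.succ (Finset.univ.filter fun j : Fin (m + 1) => j ≤ i.castSucc) := by
        ext j
        simp only [Finset.mem_filter, Finset.mem_univ, true_and, Finset.mem_insert]
        rw [Fin.le_def, Fin.le_def, Fin.ext_iff, Fin.val_succ, Fin.val_castSucc]
        omega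
      rw [e, Finset.sum_insert (by simp [Fin.le_def]), eq_sub_iff_add_eq]
      rw [eq_sub_iff_add_eq] at ih
      rw [← add_assoc, h1, ih]
  have hlast : f (Sum.inr (Fin.last m)) = f (Sum.inl b) - ∑ j, g (Sum.inr j) := by
    rw [hpath (Fin.last m)]
    congr 2
    ext j
    simp [Fin.le_last]
  -- the sums of the values of the matching edges
  have hall : ∑ v, g v = 0 := by
    refine Finset.sum_involution (fun v _ => μ v) ?_ ?_ ?_ ?_
    · intro v _
      rw [hg, add_neg_cancel]
    · intro v _ _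
      exact (hm v).1
    · intro v _
      exact Finset.mem_univ _
    · intro v _
      exact (hm v).2
  have hU : ∑ u ∈ Finset.univ.erase d, g (Sum.inl u) = 0 := by
    refine Finset.sum_involution (fun u _ => μ₀ u) ?_ ?_ ?_ ?_
    · intro u hu
      have h1 := hg (Sum.inl u)
      rw [hmu u (Finset.ne_of_mem_erase hu)] at h1
      rw [h1, add_neg_cancel]
    · intro u hu _
      exact hμ1 u (Finset.ne_of_mem_erase hu)
    · intro u hu
      refine Finset.mem_erase.mpr ⟨fun h1 => ?_, Finset.mem_univ _⟩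
      apply Finset.ne_of_mem_erase hu
      rw [← hμ2 u, h1, hd]
    · intro u _
      exact hμ2 u
  have hsum : ∑ j, g (Sum.inr j) = -g (Sum.inl d) := by
    rw [Fintype.sum_sum_type, ← Finset.add_sum_erase Finset.univ (fun u => g (Sum.inl u))
      (Finset.mem_univ d), hU, add_zero] at hall
    exact (neg_eq_of_add_eq_zero_right hall).symm
  rw [hsum, sub_neg_eq_add] at hlast
  -- the flow
  refine ⟨Sum.elim (fun u => f (Sum.inl u)) (fun _ => f (Sum.inr (Fin.last m))),
    Sum.elim (fun u => g (Sum.inl u)) (fun _ => -g (Sum.inl d)), ?_, ?_, ?_⟩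
  · rintro (u | i)
    · exact hfg _
    · exact ⟨(hfg _).1, hP _ (hfg _).2⟩
  · have hb1 : base μ₀ d (Sum.inl d) = Sum.inr 0 := by
      simp [base, Perm.mul_apply, Equiv.swap_apply_left]
    have hb2 : base μ₀ d (Sum.inr 0) = Sum.inl d := by
      simp [base, Perm.mul_apply, Equiv.swap_apply_right, hd]
    rintro (u | i)
    · by_cases hu : u = d
      · subst hu
        rw [hb1]
        rfl
      · have hb3 : base μ₀ d (Sum.inl u) = Sum.inl (μ₀ u) := by
          unfold base
          rw [Perm.mul_apply, Equiv.swap_apply_of_ne_of_ne (by simpa using hu) (by simp)]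
          rfl
        rw [hb3]
        have h1 := hg (Sum.inl u)
        rw [hmu u hu] at h1
        exact h1
    · have hi : i = 0 := Fin.ext (by have := i.isLt; simp only [Fin.val_zero]; omega)
      rw [hi, hb2]
      simp
  · rintro (u | i)
    · by_cases hu : u = b
      · subst hu
        rw [path_b]
        simp only [Sum.elim_inl, Sum.elim_inr]
        rw [hlast]
        abel
      · rw [path_inl π b hu]
        have h1 := hf (Sum.inl u)
        rw [path_inl π b hu] at h1
        exact h1
    · have hi : i = Fin.last 0 := Fin.ext (by have := i.isLt; simp only [Fin.val_last]; omega)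
      rw [hi, path_last]
      have h1 := hf (Sum.inr (Fin.last m))
      rw [path_last] at h1
      exact h1

end Family

end Pool.Agent.Helper86.Flow
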